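import Pool.Agent.Helper43.NK.Defs
import Pool.Agent.Helper78.NK.Rec
import Pool.Agent.Helper74.NQ.Pairs

/-!
# NK, piece C1: the setting of the network, from orbits to inputs with prescribed symbols number `0`
-/

set_option autoImplicit false
set_option linter.unusedSectionVars false

namespace Pool.Agent.Helper98.NK

open Finset Pool.Agent.Helper19.NF Pool.Agent.Helper74.NW Pool.Agent.Helper99.NQ Pool.Agent.Helper43.NK
open Pool.Agent.Helper74.NE (fine fine_apply)
open Pool.Agent.Helper66.NQ (act act_neg act_congr cf_act val_act val_act' val_act_succ mv mv_apply mv_of_ne cf_inj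
  mem_free)

section act

variable {n D m : ℕ} [NeZero m] {F B : Type} [Field F] [AddCommGroup B] [Module F B] [Fintype B]

open Classical in
theorem emb_apply (x : Ch0 n D m F B) (p : Fin n × Fin m) (l : Word D m B) :
    emb x p l = if h : l ≠ 0 then x p ⟨l, h⟩ else 0 := rfl

theorem emb_zero (x : Ch0 n D m F B) (p : Fin n × Fin m) : emb x p 0 = 0 := by
  rw [emb_apply, dif_neg (not_not.2 rfl)]

open Classical in
theorem emb_rst (x : Ch n D m F B) (p : Fin n × Fin m) (l : Word D m B) :
    emb (rst x) p l = if l ≠ 0 then x p l else 0 := by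
  rw [emb_apply]
  by_cases h : l = 0
  · rw [dif_neg (not_not.2 h), if_neg (not_not.2 h)]
  · rw [dif_pos h, if_pos h]
    rfl

/-- A change of the other symbols leaves the symbols number `0`. -/
theorem act_zero {g : Fin D → Equiv.Perm (Fin n)} {x0 : Fin n × Fin m → B} {i : ℕ} {I : B × Word D m B → F}
    (h : CF (fine g) x0 i (tab I)) (x : Ch0 n D m F B) (b : B) :
    act g x0 i I (emb x) (b, 0) = I (b, 0) := by
  unfold act
  rw [Pi.add_apply]
  by_cases hb : ∃ c, b = val (fine g) x0 (tab I) i c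
  · obtain ⟨c, rfl⟩ := hb
    rw [mv_apply (cf_inj h), emb_zero, add_zero]
  · push Not at hb
    rw [mv_of_ne _ hb, add_zero]

variable [Fintype F]

/-- From orbits to inputs with prescribed symbols number `0`, for any property `Q` of inputs which contains the absence of
collisions. -/
theorem average0 (g : Fin D → Equiv.Perm (Fin n)) (x0 : Fin n × Fin m → B) (i : ℕ) (γ : B → F)
    (Q : (B × Word D m B → F) → Prop) (hQ : ∀ I, Q I → CF (fine g) x0 i (tab I)) (δ : ℝ) (hδ : 0 ≤ δ)
    (h5 : ∀ I : B × Word D m B → F, (∀ b, I (b, 0) = γ b) → CF (fine g) x0 i (tab I) →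
      (Nat.card {x : Ch0 n D m F B // Q (act g x0 i I (emb x))} : ℝ) ≤ δ * Nat.card (Ch0 n D m F B)) :
    (Nat.card {I // (∀ b, I (b, 0) = γ b) ∧ Q I} : ℝ) ≤
      δ * Nat.card {I : B × Word D m B → F // ∀ b, I (b, 0) = γ b} := by
  classical
  let V : Type := {I : B × Word D m B → F // ∀ b, I (b, 0) = γ b}
  let Y : Type := Ch0 n D m F B
  have hFinV : Fintype V := Fintype.ofFinite V
  have hFinY : Fintype Y := Fintype.ofFinite Y
  have hγ : ∀ I : V, CF (fine g) x0 i (tab I.1) → ∀ y : Y, ∀ b, act g x0 i I.1 (emb y) (b, 0) = γ b :=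
    fun I hI y b => by rw [act_zero hI y, I.2 b]
  let PP : Type := {p' : V × Y // CF (fine g) x0 i (tab p'.1.1) ∧ Q (act g x0 i p'.1.1 (emb p'.2))}
  let V1 : Type := {I : V // Q I.1}
  have hback : ∀ (I : B × Word D m B → F) (y : Y), CF (fine g) x0 i (tab I) →
      act g x0 i (act g x0 i I (emb (-y))) (emb y) = I := by
    intro I y hI
    have h := act_neg hI (-(emb y))
    rw [neg_neg] at h
    rw [map_neg]
    exact h
  have hback' : ∀ (I : B × Word D m B → F) (y : Y), CF (fine g) x0 i (tab I) →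
      act g x0 i (act g x0 i I (emb y)) (emb (-y)) = I := by
    intro I y hI
    rw [map_neg]
    exact act_neg hI (emb y)
  have e1 : V1 × Y ≃ PP :=
    { toFun := fun q => ⟨(⟨act g x0 i q.1.1.1 (emb (-q.2)), hγ q.1.1 (hQ _ q.1.2) (-q.2)⟩, q.2),
          cf_act (hQ _ q.1.2) _, by
        show Q (act g x0 i (act g x0 i q.1.1.1 (emb (-q.2))) (emb q.2))
        rw [hback _ _ (hQ _ q.1.2)]
        exact q.1.2⟩
      invFun := fun q => (⟨⟨act g x0 i q.1.1.1 (emb q.1.2), hγ q.1.1 q.2.1 q.1.2⟩, q.2.2⟩, q.1.2)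
      left_inv := by
        rintro ⟨⟨I, hI⟩, y⟩
        exact Prod.ext (Subtype.ext (Subtype.ext (hback _ _ (hQ _ hI)))) rfl
      right_inv := by
        rintro ⟨⟨I, y⟩, h1, h2⟩
        exact Subtype.ext (Prod.ext (Subtype.ext (hback' _ _ h1)) rfl) }
  have e2 : PP ≃ Σ I : {I : V // CF (fine g) x0 i (tab I.1)}, {y : Y // Q (act g x0 i I.1.1 (emb y))} :=
    { toFun := fun q => ⟨⟨q.1.1, q.2.1⟩, ⟨q.1.2, q.2.2⟩⟩
      invFun := fun q => ⟨(q.1.1, q.2.1), q.1.2, q.2.2⟩
      left_inv := fun q => rfl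
      right_inv := fun q => rfl }
  have e3 : {I : B × Word D m B → F // (∀ b, I (b, 0) = γ b) ∧ Q I} ≃ V1 :=
    { toFun := fun q => ⟨⟨q.1, q.2.1⟩, q.2.2⟩
      invFun := fun q => ⟨q.1.1, q.1.2, q.2⟩
      left_inv := fun q => rfl
      right_inv := fun q => rfl }
  have h1' : Nat.card V1 * Nat.card Y = Nat.card PP := by
    rw [← Nat.card_congr e1]
    exact (Nat.card_prod _ _).symm
  have h2' : (Nat.card PP : ℝ) ≤ δ * Nat.card Y * Nat.card V := by
    rw [Nat.card_congr e2, Nat.card_eq_fintype_card, Fintype.card_sigma]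
    push_cast
    calc ∑ I : {I : V // CF (fine g) x0 i (tab I.1)}, (Fintype.card {y : Y // Q (act g x0 i I.1.1 (emb y))} : ℝ)
        ≤ ∑ _I : {I : V // CF (fine g) x0 i (tab I.1)}, δ * Nat.card Y := by
          refine Finset.sum_le_sum fun I _ => ?_
          rw [← Nat.card_eq_fintype_card]
          exact h5 I.1.1 I.1.2 I.2
      _ = δ * Nat.card Y * Fintype.card {I : V // CF (fine g) x0 i (tab I.1)} := by
          rw [Finset.sum_const, Finset.card_univ, nsmul_eq_mul, mul_comm]
      _ ≤ δ * Nat.card Y * Nat.card V := by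
          rw [Nat.card_eq_fintype_card (α := V)]
          refine mul_le_mul_of_nonneg_left ?_ (by positivity)
          exact_mod_cast Fintype.card_subtype_le _
  have h3 : (0 : ℝ) < Nat.card Y := by
    have : Nonempty Y := ⟨0⟩
    exact_mod_cast Nat.card_pos
  rw [Nat.card_congr e3]
  have h4 : (Nat.card V1 : ℝ) * Nat.card Y ≤ δ * Nat.card V * Nat.card Y := by
    rw [show δ * (Nat.card V : ℝ) * Nat.card Y = δ * Nat.card Y * Nat.card V by ring]
    refine le_trans (le_of_eq ?_) h2'
    exact_mod_cast h1'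
  exact le_of_mul_le_mul_right h4 h3

end act

section setting

variable {n D m d : ℕ} [NeZero m] {F B : Type} [Field F] [Fintype F] [AddCommGroup B] [Module F B] [Fintype B]

/-- The symbol number `0` does not count for the word. -/
theorem word_congr {y z : Word D m B → F} (h : ∀ l, l ≠ 0 → y l = z l) : word y = word z := by
  classical
  unfold word
  refine sum_congr rfl fun l _ => ?_
  by_cases hl : l = 0
  · rw [hl, smul_zero, smul_zero]
  · rw [h l hl]

theorem lam_emb_rst (g : Fin D → Equiv.Perm (Fin n)) (x : Ch n D m F B) (v : Fin n × Fin m) :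
    lam g (emb (rst x)) v = lam g x v := by
  classical
  unfold lam
  refine sum_congr rfl fun c _ => ?_
  refine congrFun (word_congr fun l hl => ?_) c
  rw [emb_rst, if_pos hl]

/-- The change of the letters. -/
noncomputable def lx (g : Fin D → Equiv.Perm (Fin n)) : Ch0 n D m F B →+ (Fin n × Fin m → B) where
  toFun x := lam g (emb x)
  map_zero' := by
    have h := Pool.Agent.Helper74.NQ.lam_add g (emb (0 : Ch0 n D m F B)) (emb (0 : Ch0 n D m F B))
    rw [map_zero, add_zero] at h
    rw [map_zero]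
    funext v
    have h2 := h v
    exact (left_eq_add.1 h2)
  map_add' x y := by
    rw [map_add]
    funext v
    exact Pool.Agent.Helper74.NQ.lam_add g _ _ v

theorem lx_apply (g : Fin D → Equiv.Perm (Fin n)) (x : Ch0 n D m F B) : lx g x = lam g (emb x) := rfl

theorem setting_net (g : Fin D → Equiv.Perm (Fin n)) {w : ℕ} (τ : Fin (w + 1) → Fin n → Fin D × Fin m) :
    ∃ lx : Ch0 n D m F B →+ (Fin n × Fin m → B), (∀ x, lx x = lam g (emb x)) ∧
      ∃ cs own, Setting (d := d) (fun l b => (rst (F := F) (B := B)).comp (flip g (τ l) b)) lx cs own := by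
  classical
  refine ⟨lx g, lx_apply g, fun l u v => univ.filter (fun c => pos g (τ l) u = fine g c v),
    fun l u t => ((τ l u).1, (τ l u).2 - t), ?_, ?_⟩
  · intro l b e v
    show lam g (emb (rst (flip g (τ l) b e))) v = _
    rw [lam_emb_rst, Pool.Agent.Helper74.NQ.lam_flip, sum_comm]
    refine sum_congr rfl fun u _ => ?_
    rw [sum_comm, sum_filter]
  · intro l u t v
    rw [mem_filter]
    obtain ⟨v1, v2⟩ := v
    rw [fine_apply]
    unfold pos
    constructor
    · rintro ⟨-, h⟩
      have h1 := (Prod.mk.inj h).1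
      have h2 := (Prod.mk.inj h).2
      refine Prod.ext ((g (τ l u).1).injective h1).symm ?_
      show v2 = t
      have h3 : (τ l u).2 = v2 + ((τ l u).2 - t) := h2
      have h4 : v2 = (τ l u).2 - ((τ l u).2 - t) := eq_sub_of_add_eq h3.symm
      rw [h4, sub_sub_cancel]
    · intro h
      obtain ⟨rfl, rfl⟩ := Prod.mk.inj h
      refine ⟨mem_univ _, Prod.ext rfl ?_⟩
      show (τ l v1).2 = v2 + ((τ l v1).2 - v2)
      rw [add_sub_cancel]

theorem flip_ne_zero' {g : Fin D → Equiv.Perm (Fin n)} {h1 : Fin n → Fin D × Fin m}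
    {b : Fin n → Fin d → Word D m B} {e : Fin n → Fin d → F} {p : Fin n × Fin m} {l : Word D m B}
    (h : flip g h1 b e p l ≠ 0) : ∃ u j, pos g h1 u = p ∧ b u j = l ∧ e u j ≠ 0 := by
  classical
  by_contra h2
  push Not at h2
  refine h ?_
  show ∑ u, ∑ j, (if pos g h1 u = p ∧ b u j = l then e u j else 0) = 0
  refine sum_eq_zero fun u _ => sum_eq_zero fun j _ => ?_
  split_ifs with h3
  · exact h2 u j h3.1 h3.2
  · rfl

end setting

section type

open Pool.Agent.Helper96.PH (CB)

variable {n D m d S : ℕ} [NeZero m] {F B : Type} [Field F] [Fintype F] [AddCommGroup B] [Module F B] [Fintype B]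

/-- The result on a changed input. -/
theorem out_act {g : Fin D → Equiv.Perm (Fin n)} {x0 : Fin n × Fin m → B} {R : ℕ} {I : B × Word D m B → F}
    (h : CF (fine g) x0 R (tab I)) {γ : B → F} (hγ : ∀ b, I (b, 0) = γ b) (x : Ch0 n D m F B) :
    Pool.Agent.Helper43.NK.out g x0 (R + 1) (act g x0 R I (emb x)) =
      ∑ v, γ (val (fine g) x0 (tab I) (R + 1) v + lam g (emb x) v) := by
  unfold Pool.Agent.Helper43.NK.out
  refine sum_congr rfl fun v _ => ?_
  rw [act_zero h x, hγ, val_act_succ h]

open Classical in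
/-- From a bound in the orbits to a bound for all inputs of one type with prescribed symbols number `0`. -/
theorem type_bound_of (P : NProg (B × Word D m B) F F S) (g : Fin D → Equiv.Perm (Fin n)) (x0 : Fin n × Fin m → B)
    (h R : ℕ) {w : ℕ} (σ : Fin (w + 2) → Fin S) (V : Finset (Fin n)) (τ : Fin (w + 1) → Fin n → Fin D × Fin m)
    (a : F) (γ : B → F)
    (hs : ∀ I, (∀ b, I (b, 0) = γ b) → (∀ l : Fin (w + 1), ∃ c, P.Run I (σ l.castSucc) c (σ l.succ)) →
      Pool.Agent.Helper43.NK.out g x0 (R + 1) I = a)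
    {δ : ℝ} (hδ : 0 ≤ δ)
    (hE : ∀ (U : Fin (w + 1) → Ch0 n D m F B → Fin n → Finset (Word D m B)) (E : Finset (Ch0 n D m F B))
      (t0 : Fin n × Fin m → B), (∀ l, ∀ x ∈ E, ∀ u ∈ V, h - 1 ≤ (U l x u).card) →
      (∀ (x : Ch0 n D m F B) (b : Fin (w + 1) → Fin n → Fin d → Word D m B) (e : Fin (w + 1) → Fin n → Fin d → F),
        (∀ l, x - rst (flip g (τ l) (b l) (e l)) ∈ E ∧ ∀ u j, e l u j ≠ 0 →
          b l u j ∈ U l (x - rst (flip g (τ l) (b l) (e l))) u) → ∑ v, γ (t0 v + lam g (emb x) v) = a) →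
      (E.card : ℝ) ≤ δ * Nat.card (Ch0 n D m F B)) :
    (Nat.card {I : B × Word D m B → F // (∀ b, I (b, 0) = γ b) ∧ CF (fine g) x0 R (tab I) ∧
      InT P g x0 h R σ V τ I} : ℝ) ≤ δ * Nat.card {I : B × Word D m B → F // ∀ b, I (b, 0) = γ b} := by
  refine average0 g x0 R γ (fun I => CF (fine g) x0 R (tab I) ∧ InT P g x0 h R σ V τ I) (fun I hI => hI.1) _ hδ ?_
  intro I hγ hcf
  set E : Finset (Ch0 n D m F B) := univ.filter (fun x => InT P g x0 h R σ V τ (act g x0 R I (emb x))) with hEd
  have hmem : ∀ x, x ∈ E ↔ InT P g x0 h R σ V τ (act g x0 R I (emb x)) := by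
    intro x
    rw [hEd, mem_filter]
    exact and_iff_right (mem_univ _)
  have hc : Nat.card {x : Ch0 n D m F B // CF (fine g) x0 R (tab (act g x0 R I (emb x))) ∧
      InT P g x0 h R σ V τ (act g x0 R I (emb x))} = E.card := by
    rw [Nat.card_eq_fintype_card, Fintype.card_subtype]
    congr 1
    ext x
    rw [hmem, mem_filter]
    exact ⟨fun h1 => h1.2.2, fun h1 => ⟨mem_univ _, cf_act hcf _, h1⟩⟩
  rw [hc]
  -- the runs
  have hw : ∀ (l : Fin (w + 1)) (x : Ch0 n D m F B), ∃ c : List (B × Word D m B), x ∈ E →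
      P.Run (act g x0 R I (emb x)) (σ l.castSucc) c (σ l.succ) ∧
      ∀ u ∈ V, h ≤ gap (free c) (val (fine g) x0 (tab (act g x0 R I (emb x))) R (pos g (τ l) u)) := by
    intro l x
    by_cases hx : x ∈ E
    · obtain ⟨c, hc⟩ := (hmem x).1 hx l
      exact ⟨c, fun _ => hc⟩
    · exact ⟨[], fun h => absurd h hx⟩
  choose c hc' using hw
  set cell : Fin n × Fin m → B := val (fine g) x0 (tab I) R with hcell
  refine hE (fun l x u => (left cell (free (c l x)) (pos g (τ l) u)).erase 0) E
    (val (fine g) x0 (tab I) (R + 1)) ?_ ?_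
  · intro l x hx u hu
    have h1 := (hc' l x hx).2 u hu
    rw [val_act hcf _ le_rfl] at h1
    have h2 : (left cell (free (c l x)) (pos g (τ l) u)).card - 1 ≤
        ((left cell (free (c l x)) (pos g (τ l) u)).erase 0).card := pred_card_le_card_erase
    refine le_trans ?_ h2
    have h3 : gap (free (c l x)) (val (fine g) x0 (tab I) R (pos g (τ l) u)) =
        (left cell (free (c l x)) (pos g (τ l) u)).card := rfl
    rw [h3] at h1
    omega
  · intro x b e hx
    rw [← hs (act g x0 R I (emb x)) (fun b' => by rw [act_zero hcf x, hγ]) ?_, out_act hcf hγ x]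
    intro l
    obtain ⟨hxE, hxU⟩ := hx l
    refine ⟨c l (x - rst (flip g (τ l) (b l) (e l))), ?_⟩
    refine run_congr (hc' l _ hxE).1 ?_
    intro z hz
    refine act_congr hcf _ _ z fun q hq => ?_
    by_contra hne
    have h1 : emb (rst (flip g (τ l) (b l) (e l))) q z.2 ≠ 0 := by
      intro h2
      refine hne ?_
      rw [map_sub, Pi.sub_apply, Pi.sub_apply, h2, sub_zero]
    rw [emb_rst] at h1
    split_ifs at h1 with h2
    · obtain ⟨u, j, h3, h4, h5⟩ := flip_ne_zero' h1
      have h6 := hxU u j h5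
      rw [mem_erase] at h6
      have h7 := h6.2
      unfold left at h7
      rw [mem_filter] at h7
      have h8 := h7.2
      rw [h3, hcell, hq, h4, mem_free] at h8
      exact h8 hz
    · exact h1 rfl

end type

end Pool.Agent.Helper98.NK
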