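import Pool.Agent.Helper43.NK.Orbit
import Pool.Agent.Helper98.NK.Fix

/-!
# NK, piece C1: the inputs of one type with prescribed symbols number `0`
-/

set_option autoImplicit false

namespace Pool.Agent.Helper98.NK

open Finset Pool.Agent.Helper19.NF Pool.Agent.Helper74.NW Pool.Agent.Helper99.NQ Pool.Agent.Helper43.NK
open Pool.Agent.Helper74.NE (fine fine_apply)
open Pool.Agent.Helper96.PH (CB)

variable {n D m d S : ℕ} [NeZero m] {F B : Type} [Field F] [Fintype F] [AddCommGroup B] [Module F B] [Fintype B]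

/-- `h + 1` unread symbols, at least `h` of them at places different from `0`. -/
theorem type_bound (P : NProg (B × Word D m B) F F S) (g : Fin D → Equiv.Perm (Fin n)) (x0 : Fin n × Fin m → B)
    (R : ℕ) {w : ℕ} (σ : Fin (w + 2) → Fin S) (V : Finset (Fin n)) (τ : Fin (w + 1) → Fin n → Fin D × Fin m)
    (a : F) (γ : B → F)
    (hs : ∀ I, (∀ b, I (b, 0) = γ b) → (∀ l : Fin (w + 1), ∃ c, P.Run I (σ l.castSucc) c (σ l.succ)) →
      Pool.Agent.Helper43.NK.out g x0 (R + 1) I = a)
    (h M Z κ : ℕ) (hN : Par n D m d w F B h M Z κ V.card)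
    {ε : ℝ} (hε : 0 ≤ ε) (hCB : ∀ K : Finset (Fin n), κ ≤ K.card → CB γ (K × Fin m) (2 * w + 1) ε) :
    (Nat.card {I : B × Word D m B → F // (∀ b, I (b, 0) = γ b) ∧ CF (fine g) x0 R (tab I) ∧
      InT P g x0 (h + 1) R σ V τ I} : ℝ) ≤
      errB n d w Z (Fintype.card F) ((h : ℝ) / Fintype.card (Word D m B)) ε *
        Nat.card {I : B × Word D m B → F // ∀ b, I (b, 0) = γ b} := by
  classical
  obtain ⟨lx, hlx, cs, own, hS⟩ := setting_net (d := d) (F := F) (B := B) g τ
  refine type_bound_of (d := d) P g x0 (h + 1) R σ V τ a γ hs (by unfold errB; positivity) ?_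
  intro U E t0 hU hcl
  refine orbit_bound (G := F) Fintype.one_lt_card _ lx cs own hS U E t0 γ a V h M Z κ hN ?_ ?_ hε hCB
  · intro l x hx u hu
    exact hU l x hx u hu
  · intro x b e hx
    rw [← hcl x b e hx]
    exact sum_congr rfl fun v _ => by rw [hlx]

end Pool.Agent.Helper98.NK
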